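import Pool.Agent.H58.BL.Stm2

/-!
# BESR: the number of classes modulo `NV`, real case
-/

set_option autoImplicit false

open Finset Module

namespace Pool.Agent.H871.BL

open Pool.Agent.H58 Pool.Agent.H58.BL

section

variable {n : ℕ} {G : Subgroup (EuclideanSpace ℝ (Fin n) ≃ₗᵢ[ℝ] EuclideanSpace ℝ (Fin n))}
  {V : Submodule ℝ (EuclideanSpace ℝ (Fin n))}

/-- the restriction to `V` -/
noncomputable def R (hV : AG.Inv G V) (g : EuclideanSpace ℝ (Fin n) ≃ₗᵢ[ℝ] EuclideanSpace ℝ (Fin n))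
    (hg : g ∈ G) : V →ₗ[ℝ] V :=
  (AG.lin g).restrict (fun x hx => hV g hg x hx)

lemma R_apply (hV : AG.Inv G V) (g : EuclideanSpace ℝ (Fin n) ≃ₗᵢ[ℝ] EuclideanSpace ℝ (Fin n))
    (hg : g ∈ G) (v : V) : ((R hV g hg v : V) : EuclideanSpace ℝ (Fin n)) = g v := rfl

lemma R_mul (hV : AG.Inv G V) (g h : EuclideanSpace ℝ (Fin n) ≃ₗᵢ[ℝ] EuclideanSpace ℝ (Fin n))
    (hg : g ∈ G) (hh : h ∈ G) : R hV (g * h) (G.mul_mem hg hh) = R hV g hg * R hV h hh := by
  ext v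
  rfl

lemma R_one (hV : AG.Inv G V) : R hV 1 G.one_mem = 1 := by
  ext v
  rfl

lemma R_congr (hV : AG.Inv G V) {g h : EuclideanSpace ℝ (Fin n) ≃ₗᵢ[ℝ] EuclideanSpace ℝ (Fin n)}
    (hg : g ∈ G) (hh : h ∈ G) (e : g = h) : R hV g hg = R hV h hh := by
  subst e
  rfl

lemma R_mul_inv (hV : AG.Inv G V)
    (g : EuclideanSpace ℝ (Fin n) ≃ₗᵢ[ℝ] EuclideanSpace ℝ (Fin n)) (hg : g ∈ G) :
    R hV g hg * R hV g⁻¹ (G.inv_mem hg) = 1 := by
  rw [← R_mul, ← R_one hV]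
  exact R_congr hV _ _ (mul_inv_cancel g)

lemma R_inv_mul (hV : AG.Inv G V)
    (g : EuclideanSpace ℝ (Fin n) ≃ₗᵢ[ℝ] EuclideanSpace ℝ (Fin n)) (hg : g ∈ G) :
    R hV g⁻¹ (G.inv_mem hg) * R hV g hg = 1 := by
  rw [← R_mul, ← R_one hV]
  exact R_congr hV _ _ (inv_mul_cancel g)

lemma trace_zero (hV : AG.Inv G V) (h2 : Class2 G) (hr : RealCase G V)
    (u : EuclideanSpace ℝ (Fin n) ≃ₗᵢ[ℝ] EuclideanSpace ℝ (Fin n)) (hu : u ∈ G)
    (hN : u ∉ NV G V) : LinearMap.trace ℝ V (R hV u hu) = 0 := by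
  have hN' : ∃ h ∈ G, ∃ v ∈ V, u (h v) ≠ h (u v) := by
    by_contra hcon
    push Not at hcon
    exact hN ⟨hu, hcon⟩
  obtain ⟨h, hh, v, hv, hne⟩ := hN'
  have hcG : h * u * h⁻¹ * u⁻¹ ∈ G :=
    G.mul_mem (G.mul_mem (G.mul_mem hh hu) (G.inv_mem hh)) (G.inv_mem hu)
  have hcN : h * u * h⁻¹ * u⁻¹ ∈ NV G V := by
    refine ⟨hcG, fun k hk w _ => ?_⟩
    exact congrArg (fun z : EuclideanSpace ℝ (Fin n) ≃ₗᵢ[ℝ] EuclideanSpace ℝ (Fin n) => z w)
      (h2 h hh u hu k hk)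
  have hg : h * u * h⁻¹ * u⁻¹ * (u * h) = h * u := by group
  have happ : ∀ w, h (u w) = (h * u * h⁻¹ * u⁻¹) (u (h w)) := by
    intro w
    exact (congrArg (fun z : EuclideanSpace ℝ (Fin n) ≃ₗᵢ[ℝ] EuclideanSpace ℝ (Fin n) => z w)
      hg).symm
  have hneg : ∀ w ∈ V, h (u w) = -u (h w) := by
    rcases hr _ hcN with h1 | h1
    · exfalso
      apply hne
      rw [happ v, h1 _ (hV u hu _ (hV h hh v hv))]
    · intro w hw
      rw [happ w, h1 _ (hV u hu _ (hV h hh w hw))]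
  have hR : R hV u hu * R hV h hh = (-1 : ℝ) • (R hV h hh * R hV u hu) := by
    refine LinearMap.ext fun w => Subtype.ext ?_
    have h3 := hneg w w.2
    have h4 : u (h (w : EuclideanSpace ℝ (Fin n))) = (-1 : ℝ) • h (u w) := by
      rw [h3, neg_one_smul, neg_neg]
    exact h4
  have e1 : LinearMap.trace ℝ V (R hV u hu) = -LinearMap.trace ℝ V (R hV u hu) := by
    calc LinearMap.trace ℝ V (R hV u hu)
        = LinearMap.trace ℝ V (R hV u hu * R hV h hh * R hV h⁻¹ (G.inv_mem hh)) := by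
          rw [mul_assoc, R_mul_inv, mul_one]
      _ = -LinearMap.trace ℝ V (R hV h hh * (R hV u hu * R hV h⁻¹ (G.inv_mem hh))) := by
          rw [hR, smul_mul_assoc, map_smul, mul_assoc, neg_one_smul]
      _ = -LinearMap.trace ℝ V (R hV u hu) := by
          rw [LinearMap.trace_mul_comm, mul_assoc, R_inv_mul, mul_one]
  linarith

end

theorem t_besr : S_BESR := by
  intro n G V hmin h2 hr S hS hdiff
  classical
  have hV := hmin.1
  have : Nontrivial V := Submodule.nontrivial_iff_ne_bot.2 hmin.2.1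
  have hpos : (0 : ℝ) < finrank ℝ V := by exact_mod_cast finrank_pos
  have hli : LinearIndependent ℝ (fun g : S => R hV g.1 (hS g.1 g.2)) := by
    rw [Fintype.linearIndependent_iff]
    intro c hc g
    have h3 : LinearMap.trace ℝ V (R hV g.1⁻¹ (G.inv_mem (hS g.1 g.2)) *
        ∑ h : S, c h • R hV h.1 (hS h.1 h.2)) = 0 := by
      rw [hc, mul_zero, map_zero]
    rw [Finset.mul_sum, map_sum, Finset.sum_eq_single g] at h3
    · rw [mul_smul_comm, map_smul, R_inv_mul, LinearMap.trace_one, smul_eq_mul] at h3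
      rcases mul_eq_zero.1 h3 with h4 | h4
      · exact h4
      · exact absurd h4 hpos.ne'
    · intro h _ hne
      rw [mul_smul_comm, map_smul, ← R_mul]
      rw [trace_zero hV h2 hr _ _ (hdiff g.1 g.2 h.1 h.2 (fun e => hne (Subtype.ext e.symm))),
        smul_zero]
    · intro h
      exact absurd (Finset.mem_univ g) h
  have h5 := hli.fintype_card_le_finrank
  rw [Fintype.card_coe, finrank_linearMap] at h5
  rw [sq]
  exact h5

end Pool.Agent.H871.BL
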